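import Pool.Agent.U84.AWQ.Stm2

/-!
# Project AWQ, package CDEC: the central decomposition into a finite and a properly infinite part
-/

set_option autoImplicit false

namespace Pool.Agent.U97.AWQ

open Pool.Agent.R456.CL Pool.Agent.U84.AWQ

universe u

section

variable {A : Type u} [CStarAlgebra A]

lemma pj_one_sub {z : A} (hz : PJ z) : PJ (1 - z) := by
  refine ⟨?_, ?_⟩
  · have h := hz.isIdempotentElem
    unfold IsIdempotentElem at h ⊢
    rw [sub_mul, one_mul, mul_sub, mul_one, h, sub_self, sub_zero]
  · have h := hz.isSelfAdjoint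
    rw [isSelfAdjoint_iff] at h ⊢
    rw [star_sub, star_one, h]

lemma cp_mul {a b : A} (ha : CP a) (hb : CP b) : CP (a * b) := by
  refine ⟨⟨?_, ?_⟩, ?_⟩
  · have h1 : a * a = a := ha.1.isIdempotentElem
    have h2 : b * b = b := hb.1.isIdempotentElem
    show a * b * (a * b) = a * b
    calc a * b * (a * b) = a * (b * a) * b := by simp only [mul_assoc]
      _ = a * (a * b) * b := by rw [ha.2 b]
      _ = (a * a) * (b * b) := by simp only [mul_assoc]
      _ = a * b := by rw [h1, h2]
  · have h1 : star a = a := ha.1.isSelfAdjoint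
    have h2 : star b = b := hb.1.isSelfAdjoint
    rw [isSelfAdjoint_iff, star_mul, h1, h2, ha.2 b]
  · intro x
    rw [mul_assoc, hb.2 x, ← mul_assoc, ha.2 x, mul_assoc]

theorem main (hS : PSupO A) : PCDec A := by
  classical
  let C : Set (Set A) := {S | (∀ w ∈ S, CP w ∧ ¬ Infin w ∧ w ≠ 0) ∧
    ∀ w ∈ S, ∀ w' ∈ S, w ≠ w' → w * w' = 0}
  obtain ⟨K, hK⟩ : ∃ K, Maximal (· ∈ C) K := by
    refine zorn_subset C ?_
    intro c hc hch
    refine ⟨⋃₀ c, ⟨?_, ?_⟩, fun s hs => Set.subset_sUnion_of_mem hs⟩
    · rintro w ⟨S, hSc, hw⟩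
      exact (hc hSc).1 w hw
    · rintro w ⟨S, hSc, hw⟩ w' ⟨S', hSc', hw'⟩ hne
      rcases hch.total hSc hSc' with h | h
      · exact (hc hSc').2 w (h hw) w' hw' hne
      · exact (hc hSc).2 w hw w' (h hw') hne
  have hKC : K ∈ C := hK.prop
  obtain ⟨z, hzP, hzle, hzsup⟩ := hS K (fun i => (i : A)) (fun i => (hKC.1 i i.2).1.1)
    (fun i j hij => hKC.2 i i.2 j j.2 (fun h => hij (Subtype.ext h)))
  have hzz : z * z = z := hzP.isIdempotentElem
  have hzs : star z = z := hzP.isSelfAdjoint
  have hwz : ∀ w ∈ K, w * z = w := fun w hw => hzle ⟨w, hw⟩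
  have hzw : ∀ w ∈ K, z * w = w := by
    intro w hw
    rw [← (hKC.1 w hw).1.2 z]
    exact hwz w hw
  have hsup : ∀ x : A, (∀ w ∈ K, x * w = 0) → x * z = 0 := fun x hx =>
    hzsup x (fun i => hx i i.2)
  have hc1 : ∀ x : A, x * z = z * x * z := by
    intro x
    have h := hsup ((1 - z) * x) (by
      intro w hw
      rw [mul_assoc, ← (hKC.1 w hw).1.2 x, ← mul_assoc, sub_mul, one_mul, hzw w hw, sub_self,
        zero_mul])
    rw [sub_mul, one_mul, sub_mul, sub_eq_zero] at h
    exact h
  have hc2 : ∀ x : A, z * x = z * x * z := by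
    intro x
    have h := congrArg star (hc1 (star x))
    rw [star_mul, star_mul, star_mul, star_star, hzs] at h
    rw [mul_assoc]
    exact h
  have hzc : CP z := ⟨hzP, fun x => (hc2 x).trans (hc1 x).symm⟩
  refine ⟨z, hzc, ?_, pj_one_sub hzP, ?_⟩
  · rintro ⟨v, hv1, hv2, hv3⟩
    apply hv3
    have hall : ∀ w ∈ K, w * (v * star v) = w := by
      intro w hw
      by_contra hne
      have hwc := (hKC.1 w hw).1
      have hww : w * w = w := hwc.1.isIdempotentElem
      have hws : star w = w := hwc.1.isSelfAdjoint
      apply (hKC.1 w hw).2.1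
      refine ⟨w * v, ?_, ?_, ?_⟩
      · rw [star_mul, hws]
        calc star v * w * (w * v) = star v * (w * w) * v := by simp only [mul_assoc]
          _ = star v * w * v := by rw [hww]
          _ = w * star v * v := by rw [hwc.2 (star v)]
          _ = w * (star v * v) := by rw [mul_assoc]
          _ = w := by rw [hv1, hwz w hw]
      · have e : w * v * star (w * v) = w * (v * star v) := by
          rw [star_mul, hws]
          calc w * v * (star v * w) = w * ((v * star v) * w) := by simp only [mul_assoc]
            _ = w * (w * (v * star v)) := by rw [hwc.2 (v * star v)]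
            _ = (w * w) * (v * star v) := by rw [mul_assoc]
            _ = w * (v * star v) := by rw [hww]
        rw [e, mul_assoc, ← hwc.2 (v * star v), ← mul_assoc, hww]
      · have e : w * v * star (w * v) = w * (v * star v) := by
          rw [star_mul, hws]
          calc w * v * (star v * w) = w * ((v * star v) * w) := by simp only [mul_assoc]
            _ = w * (w * (v * star v)) := by rw [hwc.2 (v * star v)]
            _ = (w * w) * (v * star v) := by rw [mul_assoc]
            _ = w * (v * star v) := by rw [hww]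
        rw [e]
        exact hne
    have h := hsup (z - v * star v) (by
      intro w hw
      rw [sub_mul, hzw w hw, ← (hKC.1 w hw).1.2 (v * star v), hall w hw, sub_self])
    rw [sub_mul, hzz, hv2, sub_eq_zero] at h
    exact h.symm
  · intro c hc hne
    by_contra hinf
    have h1z : CP (1 - z) := ⟨pj_one_sub hzP, fun x => by
      rw [sub_mul, mul_sub, one_mul, mul_one, hzc.2 x]⟩
    have hd : CP (c * (1 - z)) := cp_mul hc h1z
    have hdz : c * (1 - z) * z = 0 := by
      rw [mul_assoc, sub_mul, one_mul, hzz, sub_self, mul_zero]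
    have hdw : ∀ w ∈ K, c * (1 - z) * w = 0 := by
      intro w hw
      rw [← hzw w hw, ← mul_assoc, hdz, zero_mul]
    have hins : insert (c * (1 - z)) K ∈ C := by
      refine ⟨?_, ?_⟩
      · intro w hw
        rcases hw with rfl | hw
        · exact ⟨hd, hinf, hne⟩
        · exact hKC.1 w hw
      · intro w hw w' hw' hww
        rcases hw with rfl | hw
        · rcases hw' with rfl | hw'
          · exact absurd rfl hww
          · exact hdw w' hw'
        · rcases hw' with rfl | hw'
          · rw [← hd.2 w]
            exact hdw w hw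
          · exact hKC.2 w hw w' hw' hww
    have hmem : c * (1 - z) ∈ K := by
      have := hK.le_of_ge hins (Set.subset_insert _ _)
      exact this (Set.mem_insert _ _)
    apply hne
    rw [← hwz _ hmem, hdz]

end

/-- Package CDEC. -/
theorem t_CDEC : S_CDEC.{u} := fun _ _ hS _ => main hS

end Pool.Agent.U97.AWQ
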